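import Pool.Agent.H242R3.ES.StmtsG

/-!
# `TaskG6` of project H242-ES: every face covering a vertex is an edge
-/

set_option autoImplicit false

namespace Pool.Agent.H662R3.ES

open Pool.Agent.H242R3.ES

theorem t : TaskG6 := by
  intro ι E _ _ _ _ V hV v T hcov
  obtain ⟨hFv, hFT, hss, hrk⟩ := hcov
  obtain ⟨k, hkT, hkv⟩ := Set.exists_of_ssubset hss
  have hkv' : k ≠ v := hkv
  have hvT : v ∈ T := hss.1 rfl
  refine ⟨k, hkv', ?_⟩
  -- values of the functionals
  have hpos : ∀ (i j : ι), ∀ l : E →ₗ[ℝ] ℝ, (∀ i, 0 ≤ l (V i)) →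
      (∀ j, j ∈ ({i} : Set ι) ↔ l (V j) = 0) → j ≠ i → 0 < l (V j) := by
    intro i j l h1 h2 hji
    refine lt_of_le_of_ne (h1 j) fun h0 => hji ?_
    exact (h2 j).2 h0.symm
  have hzero : ∀ (i : ι), ∀ l : E →ₗ[ℝ] ℝ, (∀ j, j ∈ ({i} : Set ι) ↔ l (V j) = 0) →
      l (V i) = 0 := fun i l h => (h i).1 rfl
  obtain ⟨lv, lv1, lv2⟩ := hV v
  obtain ⟨lk, lk1, lk2⟩ := hV k
  have hli : LinearIndependent ℝ ![V v, V k] := by
    rw [LinearIndependent.pair_iff]
    intro s t hst
    have h1 := congrArg lv hst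
    have h2 := congrArg lk hst
    simp only [map_add, map_smul, smul_eq_mul, map_zero, hzero v lv lv2, hzero k lk lk2,
      mul_zero, add_zero, zero_add] at h1 h2
    exact ⟨(mul_eq_zero.1 h2).resolve_right (hpos k v lk lk1 lk2 hkv'.symm).ne',
      (mul_eq_zero.1 h1).resolve_right (hpos v k lv lv1 lv2 hkv').ne'⟩
  have hrange : Set.range ![V v, V k] = {V v, V k} := by
    rw [Matrix.range_cons, Matrix.range_cons, Matrix.range_empty, Set.union_empty]
    rfl
  have hfr : Module.finrank ℝ (Submodule.span ℝ ({V v, V k} : Set E)) = 2 := by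
    rw [← hrange, finrank_span_eq_card hli, Fintype.card_fin]
  have hle : Submodule.span ℝ ({V v, V k} : Set E) ≤ Submodule.span ℝ (V '' T) := by
    apply Submodule.span_mono
    rintro x (rfl | rfl)
    · exact ⟨v, hvT, rfl⟩
    · exact ⟨k, hkT, rfl⟩
  have hrkv : rk V {v} ≤ 1 := by
    unfold rk
    rw [Set.image_singleton]
    exact (finrank_span_le_card ({V v} : Set E)).trans (by simp)
  have heq : Submodule.span ℝ ({V v, V k} : Set E) = Submodule.span ℝ (V '' T) := by
    apply Submodule.eq_of_le_of_finrank_le hle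
    rw [hfr]
    have : rk V T ≤ 2 := by omega
    exact this
  apply Set.Subset.antisymm
  · intro m hm
    by_contra hcon
    have hmv : m ≠ v := fun h => hcon (Or.inl h)
    have hmk : m ≠ k := fun h => hcon (Or.inr h)
    have hmem : V m ∈ Submodule.span ℝ ({V v, V k} : Set E) := by
      rw [heq]
      exact Submodule.subset_span ⟨m, hm, rfl⟩
    obtain ⟨a, b, hab⟩ := Submodule.mem_span_pair.1 hmem
    obtain ⟨lm, lm1, lm2⟩ := hV m
    have h1 := congrArg lv hab
    have h2 := congrArg lk hab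
    have h3 := congrArg lm hab
    simp only [map_add, map_smul, smul_eq_mul, hzero v lv lv2, hzero k lk lk2, hzero m lm lm2,
      mul_zero, add_zero, zero_add] at h1 h2 h3
    have p1 := hpos v m lv lv1 lv2 hmv
    have p2 := hpos k m lk lk1 lk2 hmk
    have p3 := hpos v k lv lv1 lv2 hkv'
    have p4 := hpos k v lk lk1 lk2 hkv'.symm
    have p5 := hpos m v lm lm1 lm2 hmv.symm
    have p6 := hpos m k lm lm1 lm2 hmk.symm
    have hb : 0 < b := by
      rw [← h1] at p1
      exact (mul_pos_iff_of_pos_right p3).1 p1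
    have ha : 0 < a := by
      rw [← h2] at p2
      exact (mul_pos_iff_of_pos_right p4).1 p2
    have := mul_pos ha p5
    have := mul_pos hb p6
    linarith
  · rintro x (rfl | rfl)
    · exact hvT
    · exact hkT

end Pool.Agent.H662R3.ES
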